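import Mathlib
import Pool.Agent.Y198.MC.Stm

set_option autoImplicit false
set_option linter.unusedSectionVars false

/-!
# The standard charts of `X` and `Y`
-/

namespace Pool.Agent.Y930.MC.Chart

open MvPolynomial Pool.Agent.Y166.GM Pool.Agent.Y198.MC

section
variable {A B : Type} [CommRing A] [CommRing B] {N : ℕ}

theorem map_ptX (φ : A →+* B) (u v : Fin N → A) (c : Fin 4 → A) (j : Co N) :
    φ (ptX u v c j) = ptX (fun i => φ (u i)) (fun i => φ (v i)) (fun i => φ (c i)) j := by
  simp only [ptX, wdg, cub, map_mul, map_add, map_sub]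

theorem map_ptY (φ : A →+* B) (u v : Fin N → A) (x : Fin 2 → A) (q : Fin 3 → A) (j : Co N) :
    φ (ptY u v x q j) =
      ptY (fun i => φ (u i)) (fun i => φ (v i)) (fun i => φ (x i)) (fun i => φ (q i)) j := by
  simp only [ptY, wdg, vec, quad, map_mul, map_add, map_sub]

theorem map_U0 {r : ℕ} (φ : A →+* B) (x : Ch r → A) (i : Fin (r + 2)) :
    φ (U0 x i) = U0 (fun j => φ (x j)) i := by
  unfold U0
  refine Fin.cases ?_ (fun i => ?_) i
  · simp
  · refine Fin.cases ?_ (fun i => ?_) i
    · simp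
    · simp

theorem map_V0 {r : ℕ} (φ : A →+* B) (x : Ch r → A) (i : Fin (r + 2)) :
    φ (V0 x i) = V0 (fun j => φ (x j)) i := by
  unfold V0
  refine Fin.cases ?_ (fun i => ?_) i
  · simp
  · refine Fin.cases ?_ (fun i => ?_) i
    · simp
    · simp

@[simp] theorem U0_zero {r : ℕ} (x : Ch r → A) : U0 x 0 = 1 := rfl
@[simp] theorem U0_one {r : ℕ} (x : Ch r → A) : U0 x 1 = 0 := rfl
@[simp] theorem U0_succ {r : ℕ} (x : Ch r → A) (i : Fin r) : U0 x i.succ.succ = x (.inl (i, 0)) := rfl
@[simp] theorem V0_zero {r : ℕ} (x : Ch r → A) : V0 x 0 = 0 := rfl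
@[simp] theorem V0_one {r : ℕ} (x : Ch r → A) : V0 x 1 = 1 := rfl
@[simp] theorem V0_succ {r : ℕ} (x : Ch r → A) (i : Fin r) : V0 x i.succ.succ = x (.inl (i, 1)) := rfl

end

section
variable {k : Type} [Field k] {r : ℕ}

theorem eval_vvX (x : Ch r → k) (j : Co (r + 2)) :
    eval x (vvX k r j) = ptX (U0 x) (V0 x) ![1, x (.inr 0), x (.inr 1), x (.inr 2)] j := by
  unfold vvX
  rw [map_ptX (eval x)]
  have h1 : (fun i => (eval x) (U0 (X : Ch r → MvPolynomial (Ch r) k) i)) = U0 x := by
    funext i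
    rw [map_U0]
    simp
  have h2 : (fun i => (eval x) (V0 (X : Ch r → MvPolynomial (Ch r) k) i)) = V0 x := by
    funext i
    rw [map_V0]
    simp
  rw [h1, h2]
  congr 1
  funext i
  fin_cases i <;> simp

theorem eval_vvY (x : Ch r → k) (j : Co (r + 2)) :
    eval x (vvY k r j) = ptY (U0 x) (V0 x) ![1, x (.inr 0)] ![1, x (.inr 1), x (.inr 2)] j := by
  unfold vvY
  rw [map_ptY (eval x)]
  have h1 : (fun i => (eval x) (U0 (X : Ch r → MvPolynomial (Ch r) k) i)) = U0 x := by
    funext i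
    rw [map_U0]
    simp
  have h2 : (fun i => (eval x) (V0 (X : Ch r → MvPolynomial (Ch r) k) i)) = V0 x := by
    funext i
    rw [map_V0]
    simp
  rw [h1, h2]
  congr 1
  · funext i
    fin_cases i <;> simp
  · funext i
    fin_cases i <;> simp

/-- The normalised basis. -/
theorem norm_basis (u w : Fin (r + 2) → k) (x : Ch r → k) (hp : wdg u w (0, 1) ≠ 0)
    (h0 : ∀ i : Fin r, x (.inl (i, 0)) = wdg u w (i.succ.succ, 1) / wdg u w (0, 1))
    (h1 : ∀ i : Fin r, x (.inl (i, 1)) = wdg u w (0, i.succ.succ) / wdg u w (0, 1)) (i : Fin (r + 2)) :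
    u i = u 0 * U0 x i + u 1 * V0 x i ∧ w i = w 0 * U0 x i + w 1 * V0 x i := by
  refine Fin.cases ?_ (fun i => ?_) i
  · simp
  · refine Fin.cases ?_ (fun i => ?_) i
    · show u 1 = u 0 * U0 x 1 + u 1 * V0 x 1 ∧ w 1 = w 0 * U0 x 1 + w 1 * V0 x 1
      simp
    · rw [U0_succ, V0_succ, h0, h1]
      unfold wdg at hp ⊢
      simp only at hp ⊢
      generalize hP : u 0 * w 1 - w 0 * u 1 = p at hp ⊢
      constructor
      · rw [eq_comm]
        field_simp
        rw [← hP]
        ring
      · rw [eq_comm]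
        field_simp
        rw [← hP]
        ring

theorem wdg_norm (u w : Fin (r + 2) → k) (x : Ch r → k)
    (h : ∀ i : Fin (r + 2), u i = u 0 * U0 x i + u 1 * V0 x i ∧ w i = w 0 * U0 x i + w 1 * V0 x i)
    (s : Sg (r + 2)) : wdg u w s = wdg u w (0, 1) * wdg (U0 x) (V0 x) s := by
  unfold wdg
  simp only
  rw [(h s.1).1, (h s.1).2, (h s.2).1, (h s.2).2]
  ring

theorem cub_norm (u w : Fin (r + 2) → k) (c : Fin 4 → k) (x : Ch r → k)
    (h : ∀ i : Fin (r + 2), u i = u 0 * U0 x i + u 1 * V0 x i ∧ w i = w 0 * U0 x i + w 1 * V0 x i)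
    (t : Ta (r + 2)) : cub u w c t = cub (U0 x) (V0 x)
      ![cub u w c (0, 0, 0), cub u w c (0, 0, 1), cub u w c (0, 1, 1), cub u w c (1, 1, 1)] t := by
  unfold cub
  simp only [Matrix.cons_val_zero, Matrix.cons_val_one, Matrix.cons_val]
  rw [(h t.1).1, (h t.1).2, (h t.2.1).1, (h t.2.1).2, (h t.2.2).1, (h t.2.2).2]
  ring

theorem vec_norm (u w : Fin (r + 2) → k) (y : Fin 2 → k) (x : Ch r → k)
    (h : ∀ i : Fin (r + 2), u i = u 0 * U0 x i + u 1 * V0 x i ∧ w i = w 0 * U0 x i + w 1 * V0 x i)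
    (t : Fin (r + 2)) : vec u w y t = vec (U0 x) (V0 x) ![vec u w y 0, vec u w y 1] t := by
  unfold vec
  simp only [Matrix.cons_val_zero, Matrix.cons_val_one]
  rw [(h t).1, (h t).2]
  ring

theorem quad_norm (u w : Fin (r + 2) → k) (q : Fin 3 → k) (x : Ch r → k)
    (h : ∀ i : Fin (r + 2), u i = u 0 * U0 x i + u 1 * V0 x i ∧ w i = w 0 * U0 x i + w 1 * V0 x i)
    (t : Fin (r + 2) × Fin (r + 2)) : quad u w q t = quad (U0 x) (V0 x)
      ![quad u w q (0, 0), quad u w q (0, 1), quad u w q (1, 1)] t := by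
  unfold quad
  simp only [Matrix.cons_val_zero, Matrix.cons_val_one, Matrix.cons_val]
  rw [(h t.1).1, (h t.1).2, (h t.2).1, (h t.2).2]
  ring

theorem cub_smul (u w : Fin (r + 2) → k) (a : k) (c : Fin 4 → k) (t : Ta (r + 2)) :
    cub u w (fun i => a * c i) t = a * cub u w c t := by
  unfold cub
  ring

theorem vec_smul (u w : Fin (r + 2) → k) (a : k) (c : Fin 2 → k) (t : Fin (r + 2)) :
    vec u w (fun i => a * c i) t = a * vec u w c t := by
  unfold vec
  ring

theorem quad_smul (u w : Fin (r + 2) → k) (a : k) (c : Fin 3 → k) (t : Fin (r + 2) × Fin (r + 2)) :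
    quad u w (fun i => a * c i) t = a * quad u w c t := by
  unfold quad
  ring

theorem chartX : IsChart (XX k (r + 2)) (j0 r) (rrX r) (vvX k r) where
  one := by
    simp [vvX, ptX, j0, wdg, cub]
  coord := by
    rintro (⟨i, j⟩ | j)
    · fin_cases j
      · simp [vvX, ptX, rrX, wdg, cub]
      · simp [vvX, ptX, rrX, wdg, cub]
    · fin_cases j
      · simp [vvX, ptX, rrX, wdg, cub]
      · simp [vvX, ptX, rrX, wdg, cub]
      · simp [vvX, ptX, rrX, wdg, cub]
  mem := by
    intro c
    have hv : (fun j => eval c (vvX k r j)) ≠ 0 := by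
      intro h
      have h2 := congrFun h (j0 r)
      simp [vvX, ptX, j0, wdg, cub] at h2
    obtain ⟨z, hz⟩ := exists_rep hv
    refine ⟨z, ?_, hz⟩
    refine ⟨U0 c, V0 c, ![1, c (.inr 0), c (.inr 1), c (.inr 2)], ?_⟩
    have : (fun j => eval c (vvX k r j)) = ptX (U0 c) (V0 c) ![1, c (.inr 0), c (.inr 1), c (.inr 2)] := by
      funext j
      exact eval_vvX c j
    rw [← this]
    exact hz
  eq := by
    rintro z ⟨u, w, c, hz⟩ v hv hv0 j
    obtain ⟨l, hl, hvl⟩ := hz.exists_smul hv
    have hj : ∀ s t, v (s, t) = l * (wdg u w s * cub u w c t) := by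
      intro s t
      rw [hvl]
      rfl
    have hj0 : v (j0 r) = l * (wdg u w (0, 1) * cub u w c (0, 0, 0)) := hj _ _
    have hp : wdg u w (0, 1) ≠ 0 := by
      intro h
      rw [hj0, h] at hv0
      simp at hv0
    have hC : cub u w c (0, 0, 0) ≠ 0 := by
      intro h
      rw [hj0, h] at hv0
      simp at hv0
    set x : Ch r → k := fun i => v (rrX r i) / v (j0 r) with hx
    have h0 : ∀ i : Fin r, x (.inl (i, 0)) = wdg u w (i.succ.succ, 1) / wdg u w (0, 1) := by
      intro i
      show v ((if (0 : Fin 2) = 0 then (i.succ.succ, 1) else (0, i.succ.succ)), (0, 0, 0)) / v (j0 r) = _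
      rw [if_pos rfl, hj, hj0]
      field_simp
    have h1 : ∀ i : Fin r, x (.inl (i, 1)) = wdg u w (0, i.succ.succ) / wdg u w (0, 1) := by
      intro i
      show v ((if (1 : Fin 2) = 0 then (i.succ.succ, 1) else (0, i.succ.succ)), (0, 0, 0)) / v (j0 r) = _
      rw [if_neg (by decide), hj, hj0]
      field_simp
    have h2 : x (.inr 0) = cub u w c (0, 0, 1) / cub u w c (0, 0, 0) := by
      show v ((0, 1), (0, 0, 1)) / v (j0 r) = _
      rw [hj, hj0]
      field_simp
    have h3 : x (.inr 1) = cub u w c (0, 1, 1) / cub u w c (0, 0, 0) := by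
      show v ((0, 1), (0, 1, 1)) / v (j0 r) = _
      rw [hj, hj0]
      field_simp
    have h4 : x (.inr 2) = cub u w c (1, 1, 1) / cub u w c (0, 0, 0) := by
      show v ((0, 1), (1, 1, 1)) / v (j0 r) = _
      rw [hj, hj0]
      field_simp
    have hb := norm_basis u w x hp h0 h1
    rw [eval_vvX]
    obtain ⟨s, t⟩ := j
    rw [hj, hj0]
    unfold ptX
    simp only
    have e1 := wdg_norm u w x hb s
    have e2 := cub_norm u w c x hb t
    have e3 : ![cub u w c (0, 0, 0), cub u w c (0, 0, 1), cub u w c (0, 1, 1), cub u w c (1, 1, 1)] =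
        fun i => cub u w c (0, 0, 0) * (![1, x (.inr 0), x (.inr 1), x (.inr 2)] : Fin 4 → k) i := by
      funext i
      fin_cases i
      · simp
      · simp [h2]; field_simp
      · simp [h3]; field_simp
      · simp [h4]; field_simp
    rw [e3, cub_smul] at e2
    rw [e1, e2]
    ring

theorem chartY : IsChart (YY k (r + 2)) (j0 r) (rrY r) (vvY k r) where
  one := by
    simp [vvY, ptY, j0, wdg, vec, quad]
  coord := by
    rintro (⟨i, j⟩ | j)
    · fin_cases j
      · simp [vvY, ptY, rrY, wdg, vec, quad]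
      · simp [vvY, ptY, rrY, wdg, vec, quad]
    · fin_cases j
      · simp [vvY, ptY, rrY, wdg, vec, quad]
      · simp [vvY, ptY, rrY, wdg, vec, quad]
      · simp [vvY, ptY, rrY, wdg, vec, quad]
  mem := by
    intro c
    have hv : (fun j => eval c (vvY k r j)) ≠ 0 := by
      intro h
      have h2 := congrFun h (j0 r)
      simp [vvY, ptY, j0, wdg, vec, quad] at h2
    obtain ⟨z, hz⟩ := exists_rep hv
    refine ⟨z, ?_, hz⟩
    refine ⟨U0 c, V0 c, ![1, c (.inr 0)], ![1, c (.inr 1), c (.inr 2)], ?_⟩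
    have : (fun j => eval c (vvY k r j)) =
        ptY (U0 c) (V0 c) ![1, c (.inr 0)] ![1, c (.inr 1), c (.inr 2)] := by
      funext j
      exact eval_vvY c j
    rw [← this]
    exact hz
  eq := by
    rintro z ⟨u, w, y, q, hz⟩ v hv hv0 j
    obtain ⟨l, hl, hvl⟩ := hz.exists_smul hv
    have hj : ∀ s a t, v (s, (a, t)) = l * (wdg u w s * (vec u w y a * quad u w q t)) := by
      intro s a t
      rw [hvl]
      rfl
    have hj0 : v (j0 r) = l * (wdg u w (0, 1) * (vec u w y 0 * quad u w q (0, 0))) := hj _ _ _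
    have hp : wdg u w (0, 1) ≠ 0 := by
      intro h
      rw [hj0, h] at hv0
      simp at hv0
    have hV : vec u w y 0 ≠ 0 := by
      intro h
      rw [hj0, h] at hv0
      simp at hv0
    have hQ : quad u w q (0, 0) ≠ 0 := by
      intro h
      rw [hj0, h] at hv0
      simp at hv0
    set x : Ch r → k := fun i => v (rrY r i) / v (j0 r) with hx
    have h0 : ∀ i : Fin r, x (.inl (i, 0)) = wdg u w (i.succ.succ, 1) / wdg u w (0, 1) := by
      intro i
      show v ((if (0 : Fin 2) = 0 then (i.succ.succ, 1) else (0, i.succ.succ)), (0, (0, 0))) / v (j0 r) = _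
      rw [if_pos rfl, hj, hj0]
      field_simp
    have h1 : ∀ i : Fin r, x (.inl (i, 1)) = wdg u w (0, i.succ.succ) / wdg u w (0, 1) := by
      intro i
      show v ((if (1 : Fin 2) = 0 then (i.succ.succ, 1) else (0, i.succ.succ)), (0, (0, 0))) / v (j0 r) = _
      rw [if_neg (by decide), hj, hj0]
      field_simp
    have h2 : x (.inr 0) = vec u w y 1 / vec u w y 0 := by
      show v ((0, 1), (1, (0, 0))) / v (j0 r) = _
      rw [hj, hj0]
      field_simp
    have h3 : x (.inr 1) = quad u w q (0, 1) / quad u w q (0, 0) := by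
      show v ((0, 1), (0, (0, 1))) / v (j0 r) = _
      rw [hj, hj0]
      field_simp
    have h4 : x (.inr 2) = quad u w q (1, 1) / quad u w q (0, 0) := by
      show v ((0, 1), (0, (1, 1))) / v (j0 r) = _
      rw [hj, hj0]
      field_simp
    have hb := norm_basis u w x hp h0 h1
    rw [eval_vvY]
    obtain ⟨s, a, t⟩ := j
    rw [hj, hj0]
    unfold ptY
    simp only
    have e1 := wdg_norm u w x hb s
    have e2 := vec_norm u w y x hb a
    have e3 := quad_norm u w q x hb t
    have e4 : ![vec u w y 0, vec u w y 1] =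
        fun i => vec u w y 0 * (![1, x (.inr 0)] : Fin 2 → k) i := by
      funext i
      fin_cases i
      · simp
      · simp [h2]; field_simp
    have e5 : ![quad u w q (0, 0), quad u w q (0, 1), quad u w q (1, 1)] =
        fun i => quad u w q (0, 0) * (![1, x (.inr 1), x (.inr 2)] : Fin 3 → k) i := by
      funext i
      fin_cases i
      · simp
      · simp [h3]; field_simp
      · simp [h4]; field_simp
    rw [e4, vec_smul] at e2
    rw [e5, quad_smul] at e3
    rw [e1, e2, e3]
    ring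

end

theorem done : Pool.Agent.Y198.MC.StmChart := by
  intro k _ _ _ r _
  exact ⟨chartX, chartY⟩

end Pool.Agent.Y930.MC.Chart
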